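import Pool.Agent.H56.EH.Def2

/-!
# A discrete KKM lemma on monotone tuples

Simplices of the Freudenthal triangulation are coded by a base point `x` and a rank function `ρ`,
both as functions on `ℕ`; the vertices are `V x ρ i = x + [ρ < i]`.
-/

set_option autoImplicit false

namespace Pool.Agent.H67.EH.KKM

open Finset

/-- the `i`-th vertex -/
def V (x ρ : ℕ → ℕ) (i : ℕ) : ℕ → ℕ := fun j => x j + (if ρ j < i then 1 else 0)

/-- simplices of the face `x_j = N` for `j ≥ m` -/
structure Sx (N m : ℕ) (x ρ : ℕ → ℕ) : Prop where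
  top : ∀ j, m ≤ j → x j = N
  fix : ∀ j, m ≤ j → ρ j = j
  lt : ∀ j, j < m → ρ j < m
  inj : ∀ i j, ρ i = ρ j → i = j
  good : ∀ i, i ≤ m → ∀ j, V x ρ i j ≤ V x ρ i (j + 1)

/-- admissible labellings -/
structure Lab (k N : ℕ) (lab : (ℕ → ℕ) → ℕ) : Prop where
  le : ∀ f, lab f ≤ k
  zero : ∀ f : ℕ → ℕ, (∀ j, f j ≤ f (j + 1)) → (∀ j, k ≤ j → f j = N) → lab f = 0 → f 0 ≠ 0
  succ : ∀ f : ℕ → ℕ, (∀ j, f j ≤ f (j + 1)) → (∀ j, k ≤ j → f j = N) →
    ∀ c, lab f = c + 1 → f c ≠ f (c + 1)

/-- all labels up to `m` occur -/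
def Full (lab : (ℕ → ℕ) → ℕ) (m : ℕ) (x ρ : ℕ → ℕ) : Prop :=
  ∀ c, c ≤ m → ∃ i, i ≤ m ∧ lab (V x ρ i) = c

/-- all labels below `m` occur on the vertices other than `i` -/
def Door (lab : (ℕ → ℕ) → ℕ) (m : ℕ) (x ρ : ℕ → ℕ) (i : ℕ) : Prop :=
  i ≤ m ∧ ∀ c, c < m → ∃ i', i' ≤ m ∧ i' ≠ i ∧ lab (V x ρ i') = c

/-- forward rotation, base point -/
def rx (x ρ : ℕ → ℕ) : ℕ → ℕ := fun j => x j + (if ρ j = 0 then 1 else 0)
/-- forward rotation, ranks -/
def rr (n : ℕ) (ρ : ℕ → ℕ) : ℕ → ℕ :=
  fun j => if ρ j = 0 then n else if ρ j ≤ n then ρ j - 1 else ρ j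
/-- backward rotation, base point -/
def bx (n : ℕ) (x ρ : ℕ → ℕ) : ℕ → ℕ := fun j => x j - (if ρ j = n then 1 else 0)
/-- backward rotation, ranks -/
def br (n : ℕ) (ρ : ℕ → ℕ) : ℕ → ℕ :=
  fun j => if ρ j = n then 0 else if ρ j ≤ n then ρ j + 1 else ρ j
/-- swap of two neighbouring ranks -/
def sw (i : ℕ) (ρ : ℕ → ℕ) : ℕ → ℕ :=
  fun j => if ρ j = i - 1 then i else if ρ j = i then i - 1 else ρ j

lemma br_rr (n : ℕ) (ρ : ℕ → ℕ) : br n (rr n ρ) = ρ := by
  funext j; simp only [br, rr]; split_ifs <;> omega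

lemma rr_br (n : ℕ) (ρ : ℕ → ℕ) : rr n (br n ρ) = ρ := by
  funext j
  have h : br n ρ j = if ρ j = n then 0 else if ρ j ≤ n then ρ j + 1 else ρ j := rfl
  change (if br n ρ j = 0 then n else if br n ρ j ≤ n then br n ρ j - 1 else br n ρ j) = ρ j
  split_ifs at h ⊢ <;> omega

lemma bx_rx (n : ℕ) (x ρ : ℕ → ℕ) : bx n (rx x ρ) (rr n ρ) = x := by
  funext j; simp only [bx, rx, rr]; split_ifs <;> omega

lemma rx_bx (n : ℕ) (x ρ : ℕ → ℕ) (h : ∀ j, ρ j = n → 1 ≤ x j) : rx (bx n x ρ) (br n ρ) = x := by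
  funext j
  have h0 := h j
  have h1 : br n ρ j = if ρ j = n then 0 else if ρ j ≤ n then ρ j + 1 else ρ j := rfl
  change (x j - (if ρ j = n then 1 else 0)) + (if br n ρ j = 0 then 1 else 0) = x j
  split_ifs at h1 ⊢ <;> omega

lemma sw_sw (i : ℕ) (hi : 0 < i) (ρ : ℕ → ℕ) : sw i (sw i ρ) = ρ := by
  funext j; simp only [sw]; split_ifs <;> omega

lemma V_rot (n : ℕ) (x ρ : ℕ → ℕ) (i : ℕ) (hi : i ≤ n) :
    V (rx x ρ) (rr n ρ) i = V x ρ (i + 1) := by
  funext j; simp only [V, rx, rr]; split_ifs <;> omega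

lemma V_brot (n : ℕ) (x ρ : ℕ → ℕ) (h : ∀ j, ρ j = n → 1 ≤ x j) (i : ℕ) (hi : i ≤ n) :
    V (bx n x ρ) (br n ρ) (i + 1) = V x ρ i := by
  funext j; have := h j; simp only [V, bx, br]; split_ifs <;> omega

lemma V_sw (i : ℕ) (hi : 0 < i) (x ρ : ℕ → ℕ) (i' : ℕ) (h : i' ≠ i) :
    V x (sw i ρ) i' = V x ρ i' := by
  funext j; simp only [V, sw]; split_ifs <;> omega

section simplex

variable {N m n k : ℕ} {x ρ : ℕ → ℕ} {lab : (ℕ → ℕ) → ℕ}

lemma Sx.V_top (h : Sx N m x ρ) {i : ℕ} (hi : i ≤ m) (j : ℕ) (hj : m ≤ j) : V x ρ i j = N := by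
  have h1 := h.top j hj
  have h2 := h.fix j hj
  simp only [V]; split_ifs <;> omega

lemma Sx.surj (h : Sx N m x ρ) {i : ℕ} (hi : i < m) : ∃ j, j < m ∧ ρ j = i := by
  have h1 : (range m).image ρ = range m := by
    apply Finset.eq_of_subset_of_card_le
    · intro y hy
      rw [mem_image] at hy
      obtain ⟨j, hj, rfl⟩ := hy
      exact mem_range.2 (h.lt j (mem_range.1 hj))
    · rw [card_image_of_injective _ (fun a b hab => h.inj a b hab)]
  have h2 : i ∈ (range m).image ρ := by rw [h1]; exact mem_range.2 hi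
  rw [mem_image] at h2
  obtain ⟨j, hj, hj2⟩ := h2
  exact ⟨j, mem_range.1 hj, hj2⟩

lemma Sx.le_N (h : Sx N m x ρ) {i : ℕ} (hi : i ≤ m) (j : ℕ) : V x ρ i j ≤ N := by
  have h1 : Monotone (V x ρ i) := monotone_nat_of_le_succ (h.good i hi)
  have h2 := h1 (le_max_left j m)
  rwa [h.V_top hi (max j m) (le_max_right j m)] at h2

lemma Sx.x_le (h : Sx N m x ρ) (j : ℕ) : x j ≤ N := by
  have := h.le_N (Nat.zero_le m) j
  simpa [V] using this

lemma Sx.lab_le (h : Sx N m x ρ) (hl : Lab k N lab) (hm : m ≤ k) {i : ℕ} (hi : i ≤ m) :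
    lab (V x ρ i) ≤ m := by
  by_contra hc
  push Not at hc
  obtain ⟨c, hc2⟩ : ∃ c, lab (V x ρ i) = c + 1 := ⟨lab (V x ρ i) - 1, by omega⟩
  apply hl.succ (V x ρ i) (h.good i hi) (fun j hj => h.V_top hi j (by omega)) c hc2
  rw [h.V_top hi c (by omega), h.V_top hi (c + 1) (by omega)]

/-- boundary doors -/
def Bd (N n : ℕ) (x ρ : ℕ → ℕ) (i : ℕ) : Prop := i = 0 ∧ ρ n = 0 ∧ x n + 1 = N

/-- forward pivot -/
lemma Sx.rot (h : Sx N (n + 1) x ρ) (hb : ¬ (ρ n = 0 ∧ x n + 1 = N)) :
    Sx N (n + 1) (rx x ρ) (rr n ρ) := by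
  constructor
  · intro j hj
    have h1 := h.top j hj
    have h2 := h.fix j hj
    simp only [rx]; split_ifs <;> omega
  · intro j hj
    have h2 := h.fix j hj
    simp only [rr]; split_ifs <;> omega
  · intro j hj
    have h2 := h.lt j hj
    simp only [rr]; split_ifs <;> omega
  · intro i j hij
    apply h.inj
    simp only [rr] at hij
    split_ifs at hij <;> omega
  · intro i hi j
    rcases Nat.lt_or_ge n i with hin | hin
    · obtain rfl : i = n + 1 := by omega
      have h1 := h.good 1 (by omega) j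
      have h2 := h.good (n + 1) le_rfl j
      simp only [V, rx, rr] at h1 h2 ⊢
      rcases lt_trichotomy j n with hj | hj | hj
      · have h3 := h.lt j (by omega)
        have h4 := h.lt (j + 1) (by omega)
        split_ifs at h1 h2 ⊢ <;> omega
      · subst hj
        have h3 := h.lt j (by omega)
        have h4 := h.fix (j + 1) (by omega)
        have h5 := h.top (j + 1) (by omega)
        split_ifs at h1 h2 ⊢ <;> omega
      · have h3 := h.fix j (by omega)
        have h4 := h.fix (j + 1) (by omega)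
        have h5 := h.top (j + 1) (by omega)
        have h6 := h.top j (by omega)
        split_ifs at h1 h2 ⊢ <;> omega
    · rw [V_rot n x ρ i hin]
      exact h.good (i + 1) (by omega) j

/-- forward rotation onto the next face -/
lemma Sx.down (h : Sx N (n + 1) x ρ) (hb : ρ n = 0) (hb2 : x n + 1 = N) :
    Sx N n (rx x ρ) (rr n ρ) := by
  constructor
  · intro j hj
    rcases Nat.eq_or_lt_of_le hj with rfl | hj
    · simp only [rx]; split_ifs; omega
    · have h1 := h.top j hj
      have h2 := h.fix j hj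
      simp only [rx]; split_ifs <;> omega
  · intro j hj
    rcases Nat.eq_or_lt_of_le hj with rfl | hj
    · simp only [rr]; split_ifs; rfl
    · have h2 := h.fix j hj
      simp only [rr]; split_ifs <;> omega
  · intro j hj
    have h2 := h.lt j (by omega)
    have h3 : ρ j ≠ 0 := fun h0 => by
      have := h.inj j n (by rw [h0, hb])
      omega
    simp only [rr]; split_ifs <;> omega
  · intro i j hij
    apply h.inj
    simp only [rr] at hij
    split_ifs at hij <;> omega
  · intro i hi j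
    rw [V_rot n x ρ i hi]
    exact h.good (i + 1) (by omega) j

/-- backward pivot: positivity -/
lemma Sx.pos (h : Sx N (n + 1) x ρ) (hl : Lab k N lab) (hm : n + 1 ≤ k)
    (hd : Door lab (n + 1) x ρ (n + 1)) :
    (∀ j, ρ j = n → 1 ≤ x j) ∧ (∀ j, ρ (j + 1) = n → x j + 1 ≤ x (j + 1)) := by
  have key : ∀ j, ρ (j + 1) = n → x j + 1 ≤ x (j + 1) := by
    intro j hj
    have h1 : j + 1 ≤ n := by
      by_contra hc
      have := h.fix (j + 1) (by omega)
      omega
    have h2 := h.lt j (by omega)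
    have h3 : ρ j ≠ n := fun h0 => by
      have := h.inj j (j + 1) (by rw [h0, hj])
      omega
    have h4 := h.good n (by omega) j
    simp only [V] at h4
    split_ifs at h4 <;> omega
  refine ⟨?_, key⟩
  intro j hj
  rcases Nat.eq_zero_or_pos j with rfl | hj0
  · by_contra hc
    obtain ⟨i', hi1, hi2, hi3⟩ := hd.2 0 (by omega)
    apply hl.zero (V x ρ i') (h.good i' hi1) (fun j hj => h.V_top hi1 j (by omega)) hi3
    simp only [V]
    split_ifs <;> omega
  · obtain ⟨j', rfl⟩ : ∃ j', j = j' + 1 := ⟨j - 1, by omega⟩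
    have := key j' hj
    omega

/-- backward pivot -/
lemma Sx.brot (h : Sx N (n + 1) x ρ) (h0 : ∀ j, ρ j = n → 1 ≤ x j)
    (h1 : ∀ j, ρ (j + 1) = n → x j + 1 ≤ x (j + 1)) :
    Sx N (n + 1) (bx n x ρ) (br n ρ) := by
  constructor
  · intro j hj
    have h1 := h.top j hj
    have h2 := h.fix j hj
    simp only [bx]; split_ifs <;> omega
  · intro j hj
    have h2 := h.fix j hj
    simp only [br]; split_ifs <;> omega
  · intro j hj
    have h2 := h.lt j hj
    simp only [br]; split_ifs <;> omega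
  · intro i j hij
    apply h.inj
    simp only [br] at hij
    split_ifs at hij <;> omega
  · intro i hi j
    rcases Nat.eq_zero_or_pos i with rfl | hi0
    · have h2 := h.good 0 (by omega) j
      have h3 := h1 j
      simp only [V, bx] at h2 ⊢
      split_ifs at h2 ⊢ <;> omega
    · obtain ⟨i', rfl⟩ : ∃ i', i = i' + 1 := ⟨i - 1, by omega⟩
      rw [V_brot n x ρ h0 i' (by omega)]
      exact h.good i' (by omega) j

/-- backward rotation from the next face -/
lemma Sx.up (h : Sx N n x ρ) (h0 : 1 ≤ N) :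
    Sx N (n + 1) (bx n x ρ) (br n ρ) ∧ (∀ j, ρ j = n → 1 ≤ x j) := by
  have h00 : ∀ j, ρ j = n → 1 ≤ x j := by
    intro j hj
    have h1 : n ≤ j := by
      by_contra hc
      have := h.lt j (by omega)
      omega
    have := h.top j h1
    omega
  refine ⟨?_, h00⟩
  constructor
  · intro j hj
    have h1 := h.top j (by omega)
    have h2 := h.fix j (by omega)
    simp only [bx]; split_ifs <;> omega
  · intro j hj
    have h2 := h.fix j (by omega)
    simp only [br]; split_ifs <;> omega
  · intro j hj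
    rcases Nat.eq_or_lt_of_le (Nat.lt_succ_iff.1 hj) with rfl | hj2
    · have h2 := h.fix j le_rfl
      simp only [br]; split_ifs; omega
    · have h2 := h.lt j hj2
      simp only [br]; split_ifs <;> omega
  · intro i j hij
    apply h.inj
    simp only [br] at hij
    split_ifs at hij <;> omega
  · intro i hi j
    rcases Nat.eq_zero_or_pos i with rfl | hi0
    · have h2 := h.good 0 (by omega) j
      have h3 := h.good n le_rfl j
      simp only [V, bx] at h2 h3 ⊢
      rcases lt_trichotomy (j + 1) n with hj | hj | hj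
      · have h4 := h.lt (j + 1) (by omega)
        split_ifs at h2 h3 ⊢ <;> omega
      · have h4 := h.lt j (by omega)
        have h5 := h.fix (j + 1) (by omega)
        have h6 := h.top (j + 1) (by omega)
        split_ifs at h2 h3 ⊢ <;> omega
      · have h4 := h.fix (j + 1) (by omega)
        split_ifs at h2 h3 ⊢ <;> omega
    · obtain ⟨i', rfl⟩ : ∃ i', i = i' + 1 := ⟨i - 1, by omega⟩
      rw [V_brot n x ρ h00 i' (by omega)]
      exact h.good i' (by omega) j

/-- interior pivot -/
lemma Sx.swap (h : Sx N (n + 1) x ρ) (hl : Lab k N lab) (hm : n + 1 ≤ k) {i : ℕ} (hi : 0 < i)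
    (hin : i < n + 1) (hd : Door lab (n + 1) x ρ i) : Sx N (n + 1) x (sw i ρ) := by
  constructor
  · exact h.top
  · intro j hj
    have h2 := h.fix j hj
    simp only [sw]; split_ifs <;> omega
  · intro j hj
    have h2 := h.lt j hj
    simp only [sw]; split_ifs <;> omega
  · intro i j hij
    apply h.inj
    simp only [sw] at hij
    split_ifs at hij <;> omega
  · intro i' hi' j
    by_cases hii : i' = i
    · subst hii
      by_contra hc
      have hne : ρ j ≠ ρ (j + 1) := fun h0 => by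
        have := h.inj j (j + 1) h0
        omega
      have h1 := h.good (i' - 1) (by omega) j
      have h2 := h.good (i' + 1) (by omega) j
      have h3 : ρ j = i' ∧ ρ (j + 1) = i' - 1 ∧ x j = x (j + 1) := by
        simp only [V, sw] at h1 h2 hc
        split_ifs at h1 h2 hc <;> omega
      have h4 : j + 1 < n + 1 := by
        by_contra hc2
        have := h.fix (j + 1) (by omega)
        omega
      obtain ⟨i'', hi1, hi2, hi3⟩ := hd.2 (j + 1) h4
      apply hl.succ (V x ρ i'') (h.good i'' hi1) (fun j hj => h.V_top hi1 j (by omega)) j hi3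
      simp only [V]
      split_ifs <;> omega
    · rw [V_sw i hi x ρ i' hii]
      exact h.good i' hi' j

end simplex

/-! ### The parity of the doors of one simplex -/

lemma door_parity (K m : ℕ) (hK : m ≤ K) (f : ℕ → ℕ) (hf : ∀ i, i ≤ m → f i ≤ m) :
    (((range (K + 1)).filter fun i => i ≤ m ∧ ∀ c, c < m → ∃ i', i' ≤ m ∧ i' ≠ i ∧ f i' = c).card
      : ZMod 2) = if ∀ c, c ≤ m → ∃ i, i ≤ m ∧ f i = c then 1 else 0 := by
  classical
  have hR : ∀ c, c ∈ range (m + 1) ↔ c ≤ m := fun c => by rw [mem_range]; omega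
  split_ifs with hF
  · -- full
    have hinj : ∀ i j, i ≤ m → j ≤ m → f i = f j → i = j := by
      have h1 : (range (m + 1)).image f = range (m + 1) := by
        apply Finset.Subset.antisymm
        · intro y hy
          rw [mem_image] at hy
          obtain ⟨j, hj, rfl⟩ := hy
          exact (hR _).2 (hf j ((hR _).1 hj))
        · intro c hc
          obtain ⟨i, hi, hi2⟩ := hF c ((hR _).1 hc)
          exact mem_image.2 ⟨i, (hR _).2 hi, hi2⟩
      have h2 : Set.InjOn f (range (m + 1) : Finset ℕ) := by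
        apply Finset.card_image_iff.1
        rw [h1]
      intro i j hi hj hij
      exact h2 (mem_coe.2 ((hR _).2 hi)) (mem_coe.2 ((hR _).2 hj)) hij
    obtain ⟨i0, hi0, hi1⟩ := hF m le_rfl
    have : ((range (K + 1)).filter fun i => i ≤ m ∧ ∀ c, c < m →
        ∃ i', i' ≤ m ∧ i' ≠ i ∧ f i' = c) = {i0} := by
      ext i
      rw [mem_filter, mem_range, mem_singleton]
      constructor
      · rintro ⟨_, hi, hd⟩
        by_contra hne
        have h1 : f i ≠ m := fun h => hne (hinj i i0 hi hi0 (h.trans hi1.symm))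
        obtain ⟨i', h2, h3, h4⟩ := hd (f i) (lt_of_le_of_ne (hf i hi) h1)
        exact h3 (hinj i' i h2 hi h4)
      · rintro rfl
        refine ⟨by omega, hi0, ?_⟩
        intro c hc
        obtain ⟨i', h2, h3⟩ := hF c hc.le
        refine ⟨i', h2, ?_, h3⟩
        rintro rfl
        omega
    rw [this, card_singleton]
    rfl
  · -- not full
    by_cases hD : ∃ i, i ≤ m ∧ ∀ c, c < m → ∃ i', i' ≤ m ∧ i' ≠ i ∧ f i' = c
    · obtain ⟨i, hi, hd⟩ := hD
      have h1 : ((range (m + 1)).erase i).card = m := by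
        rw [card_erase_of_mem ((hR _).2 hi), card_range]; rfl
      have h2 : range m ⊆ ((range (m + 1)).erase i).image f := by
        intro c hc
        obtain ⟨i', h3, h4, h5⟩ := hd c (mem_range.1 hc)
        exact mem_image.2 ⟨i', mem_erase.2 ⟨h4, (hR _).2 h3⟩, h5⟩
      have h3 : range m = ((range (m + 1)).erase i).image f := by
        apply Finset.eq_of_subset_of_card_le h2
        rw [card_range]
        exact card_image_le.trans h1.le
      have h4 : Set.InjOn f (((range (m + 1)).erase i : Finset ℕ) : Set ℕ) := by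
        apply Finset.card_image_iff.1
        rw [← h3, card_range, h1]
      have hinj : ∀ a b, a ≤ m → b ≤ m → a ≠ i → b ≠ i → f a = f b → a = b := by
        intro a b ha hb ha2 hb2 hab
        exact h4 (mem_coe.2 (mem_erase.2 ⟨ha2, (hR _).2 ha⟩))
          (mem_coe.2 (mem_erase.2 ⟨hb2, (hR _).2 hb⟩)) hab
      have hlt : ∀ a, a ≤ m → a ≠ i → f a < m := by
        intro a ha ha2
        have : f a ∈ range m := by
          rw [h3]
          exact mem_image.2 ⟨a, mem_erase.2 ⟨ha2, (hR _).2 ha⟩, rfl⟩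
        exact mem_range.1 this
      have hfi : f i < m := by
        refine lt_of_le_of_ne (hf i hi) fun h => hF ?_
        intro c hc
        rcases Nat.eq_or_lt_of_le hc with rfl | hc
        · exact ⟨i, hi, h⟩
        · obtain ⟨i', h5, _, h6⟩ := hd c hc
          exact ⟨i', h5, h6⟩
      obtain ⟨i', hi1, hi2, hi3⟩ := hd (f i) hfi
      have : ((range (K + 1)).filter fun i => i ≤ m ∧ ∀ c, c < m →
          ∃ i', i' ≤ m ∧ i' ≠ i ∧ f i' = c) = {i, i'} := by
        ext a
        rw [mem_filter, mem_range, mem_insert, mem_singleton]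
        constructor
        · rintro ⟨_, ha, hda⟩
          by_contra hne
          push Not at hne
          obtain ⟨b, hb1, hb2, hb3⟩ := hda (f a) (hlt a ha hne.1)
          by_cases hbi : b = i
          · subst hbi
            exact hne.2 (hinj a i' ha hi1 hne.1 hi2 (by rw [hi3, hb3]))
          · exact hb2 (hinj b a hb1 ha hbi hne.1 hb3)
        · rintro (rfl | rfl)
          · exact ⟨by omega, hi, hd⟩
          · refine ⟨by omega, hi1, ?_⟩
            intro c hc
            obtain ⟨b, hb1, hb2, hb3⟩ := hd c hc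
            by_cases hba : b = a
            · subst hba
              exact ⟨i, hi, hb2.symm, by rw [← hi3, hb3]⟩
            · exact ⟨b, hb1, hba, hb3⟩
      rw [this, card_pair hi2.symm]
      rfl
    · have : ((range (K + 1)).filter fun i => i ≤ m ∧ ∀ c, c < m →
          ∃ i', i' ≤ m ∧ i' ≠ i ∧ f i' = c) = ∅ := by
        apply filter_eq_empty_iff.2
        intro i _ hi
        exact hD ⟨i, hi⟩
      rw [this, card_empty]
      rfl

/-! ### Finite sets of functions -/

open scoped Classical in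
/-- functions with values below `M` on `[0, k)` and equal to `d` from `k` on -/
noncomputable def FS (k M : ℕ) (d : ℕ → ℕ) : Finset (ℕ → ℕ) :=
  (Fintype.piFinset (fun _ : Fin k => range M)).image
    (fun g j => if h : j < k then g ⟨j, h⟩ else d j)

lemma mem_FS (k M : ℕ) (d f : ℕ → ℕ) (h1 : ∀ j, j < k → f j < M) (h2 : ∀ j, k ≤ j → f j = d j) :
    f ∈ FS k M d := by
  classical
  unfold FS
  rw [mem_image]
  refine ⟨fun j => f j, ?_, ?_⟩
  · rw [Fintype.mem_piFinset]
    intro j
    exact mem_range.2 (h1 j j.2)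
  · funext j
    split_ifs with h
    · rfl
    · exact (h2 j (by omega)).symm

lemma Sx.mem {N m k : ℕ} {x ρ : ℕ → ℕ} (h : Sx N m x ρ) (hm : m ≤ k) :
    x ∈ FS k (N + 1) (fun _ => N) ∧ ρ ∈ FS k k id := by
  constructor
  · apply mem_FS
    · intro j _
      exact Nat.lt_succ_of_le (h.x_le j)
    · intro j hj
      exact h.top j (by omega)
  · apply mem_FS
    · intro j hj
      rcases Nat.lt_or_ge j m with h1 | h1
      · exact (h.lt j h1).trans_le hm
      · rw [h.fix j h1]; exact hj
    · intro j hj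
      exact h.fix j (by omega)

open scoped Classical in
/-- the full simplices of level `m` -/
noncomputable def SF (k N : ℕ) (lab : (ℕ → ℕ) → ℕ) (m : ℕ) : Finset ((ℕ → ℕ) × (ℕ → ℕ)) :=
  (FS k (N + 1) (fun _ => N) ×ˢ FS k k id).filter fun z => Sx N m z.1 z.2 ∧ Full lab m z.1 z.2

open scoped Classical in
/-- the doors of level `m` -/
noncomputable def SD (k N : ℕ) (lab : (ℕ → ℕ) → ℕ) (m : ℕ) :
    Finset (((ℕ → ℕ) × (ℕ → ℕ)) × ℕ) :=
  ((FS k (N + 1) (fun _ => N) ×ˢ FS k k id) ×ˢ range (k + 1)).filter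
    fun z => Sx N m z.1.1 z.1.2 ∧ Door lab m z.1.1 z.1.2 z.2

lemma mem_SF {k N : ℕ} {lab : (ℕ → ℕ) → ℕ} {m : ℕ} (hm : m ≤ k) (z : (ℕ → ℕ) × (ℕ → ℕ)) :
    z ∈ SF k N lab m ↔ Sx N m z.1 z.2 ∧ Full lab m z.1 z.2 := by
  classical
  unfold SF
  rw [mem_filter, mem_product]
  exact ⟨fun h => h.2, fun h => ⟨h.1.mem hm, h⟩⟩

lemma mem_SD {k N : ℕ} {lab : (ℕ → ℕ) → ℕ} {m : ℕ} (hm : m ≤ k) (z : ((ℕ → ℕ) × (ℕ → ℕ)) × ℕ) :
    z ∈ SD k N lab m ↔ Sx N m z.1.1 z.1.2 ∧ Door lab m z.1.1 z.1.2 z.2 := by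
  classical
  unfold SD
  rw [mem_filter, mem_product, mem_product, mem_range]
  exact ⟨fun h => h.2, fun h => ⟨⟨h.1.mem hm, by have := h.2.1; omega⟩, h⟩⟩

/-- doors and full simplices of one level -/
lemma doors_eq {k N : ℕ} {lab : (ℕ → ℕ) → ℕ} (hl : Lab k N lab) {m : ℕ} (hm : m ≤ k) :
    ((SD k N lab m).card : ZMod 2) = ((SF k N lab m).card : ZMod 2) := by
  classical
  unfold SD SF
  rw [card_filter, card_filter, sum_product]
  push_cast
  apply sum_congr rfl
  intro z _
  by_cases hz : Sx N m z.1 z.2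
  · have h1 := door_parity k m hm (fun i => lab (V z.1 z.2 i)) (fun i hi => hz.lab_le hl hm hi)
    rw [card_filter] at h1
    push_cast at h1
    simp only [hz, true_and]
    refine (sum_congr rfl fun i _ => ?_).trans (h1.trans ?_)
    · exact if_congr Iff.rfl rfl rfl
    · exact if_congr Iff.rfl rfl rfl
  · simp [hz]

/-- the pivot -/
noncomputable def piv (n : ℕ) (z : ((ℕ → ℕ) × (ℕ → ℕ)) × ℕ) : ((ℕ → ℕ) × (ℕ → ℕ)) × ℕ :=
  if z.2 = 0 then ((rx z.1.1 z.1.2, rr n z.1.2), n + 1)
  else if z.2 = n + 1 then ((bx n z.1.1 z.1.2, br n z.1.2), 0)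
  else ((z.1.1, sw z.2 z.1.2), z.2)

open scoped Classical in
lemma doors_bd {k N : ℕ} {lab : (ℕ → ℕ) → ℕ} (hl : Lab k N lab) {n : ℕ} (hm : n + 1 ≤ k) :
    ((SD k N lab (n + 1)).card : ZMod 2) =
      (((SD k N lab (n + 1)).filter fun z => Bd N n z.1.1 z.1.2 z.2).card : ZMod 2) := by
  rw [← card_filter_add_card_filter_not (s := SD k N lab (n + 1))
    (fun z => Bd N n z.1.1 z.1.2 z.2)]
  push_cast
  have key : (((SD k N lab (n + 1)).filter fun z => ¬ Bd N n z.1.1 z.1.2 z.2).card : ZMod 2)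
      = 0 := by
    rw [card_eq_sum_ones]
    push_cast
    apply sum_involution (fun z _ => piv n z)
    · intro z _
      rfl
    · rintro ⟨⟨x, ρ⟩, i⟩ hz _
      rw [mem_filter, mem_SD hm] at hz
      obtain ⟨⟨hS, hD⟩, hB⟩ := hz
      simp only at hS hD hB
      intro h
      simp only [piv] at h
      split_ifs at h with h1 h2
      · simp only [Prod.mk.injEq] at h
        omega
      · simp only [Prod.mk.injEq] at h
        omega
      · simp only [Prod.mk.injEq] at h
        have h3 := hD.1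
        obtain ⟨j, hj, hj2⟩ := hS.surj (i := i) (by omega)
        have h4 := congrFun h.1.2 j
        simp only [sw] at h4
        split_ifs at h4 <;> omega
    · rintro ⟨⟨x, ρ⟩, i⟩ hz
      rw [mem_filter, mem_SD hm] at hz
      obtain ⟨⟨hS, hD⟩, hB⟩ := hz
      simp only at hS hD hB
      rw [mem_filter, mem_SD hm]
      unfold piv
      simp only
      split_ifs with h1 h2
      · subst h1
        have hb : ¬ (ρ n = 0 ∧ x n + 1 = N) := fun h => hB ⟨rfl, h⟩
        refine ⟨⟨hS.rot hb, le_rfl, ?_⟩, ?_⟩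
        · intro c hc
          obtain ⟨i', h3, h4, h5⟩ := hD.2 c hc
          refine ⟨i' - 1, by omega, by omega, ?_⟩
          simp only
          rw [V_rot n x ρ (i' - 1) (by omega), Nat.sub_add_cancel (by omega)]
          exact h5
        · rintro ⟨h3, -⟩
          simp only at h3
          omega
      · subst h2
        obtain ⟨h3, h4⟩ := hS.pos hl hm hD
        refine ⟨⟨hS.brot h3 h4, Nat.zero_le _, ?_⟩, ?_⟩
        · intro c hc
          obtain ⟨i', h5, h6, h7⟩ := hD.2 c hc
          refine ⟨i' + 1, by omega, by omega, ?_⟩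
          simp only
          rw [V_brot n x ρ h3 i' (by omega)]
          exact h7
        · rintro ⟨-, h5, h6⟩
          simp only [br, bx] at h5 h6
          have h7 := hS.good (n + 1) le_rfl n
          have h8 := hS.top (n + 1) le_rfl
          have h9 := hS.lt n (by omega)
          have h10 := h3 n
          have h11 := hS.fix (n + 1) le_rfl
          simp only [V] at h7
          split_ifs at h5 h6 h7 <;> omega
      · have h3 := hD.1
        refine ⟨⟨hS.swap hl hm (by omega) (by omega) hD, h3, ?_⟩, ?_⟩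
        · intro c hc
          obtain ⟨i', h5, h6, h7⟩ := hD.2 c hc
          refine ⟨i', h5, h6, ?_⟩
          simp only
          rw [V_sw i (by omega) x ρ i' h6]
          exact h7
        · rintro ⟨h4, -⟩
          exact h1 h4
    · rintro ⟨⟨x, ρ⟩, i⟩ hz
      rw [mem_filter, mem_SD hm] at hz
      obtain ⟨⟨hS, hD⟩, hB⟩ := hz
      simp only at hS hD hB
      unfold piv
      simp only
      by_cases h1 : i = 0
      · subst h1
        simp [bx_rx, br_rr]
      · by_cases h2 : i = n + 1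
        · subst h2
          obtain ⟨h3, h4⟩ := hS.pos hl hm hD
          simp [rx_bx n x ρ h3, rr_br]
        · simp [h1, h2, sw_sw i (by omega)]
  rw [key, add_zero]

open scoped Classical in
lemma bd_full {k N : ℕ} {lab : (ℕ → ℕ) → ℕ} (hl : Lab k N lab) {n : ℕ} (hm : n + 1 ≤ k) :
    ((SD k N lab (n + 1)).filter fun z => Bd N n z.1.1 z.1.2 z.2).card = (SF k N lab n).card := by
  have hm' : n ≤ k := by omega
  apply card_nbij' (fun z => (rx z.1.1 z.1.2, rr n z.1.2))
    (fun z => ((bx n z.1 z.2, br n z.2), 0))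
  · rintro ⟨⟨x, ρ⟩, i⟩ hz
    rw [mem_coe, mem_filter, mem_SD hm] at hz
    obtain ⟨⟨hS, hD⟩, rfl, hb1, hb2⟩ := hz
    simp only at hS hD hb1 hb2
    rw [mem_coe, mem_SF hm']
    simp only
    refine ⟨hS.down hb1 hb2, ?_⟩
    intro c hc
    obtain ⟨i', h3, h4, h5⟩ := hD.2 c (by omega)
    refine ⟨i' - 1, by omega, ?_⟩
    rw [V_rot n x ρ (i' - 1) (by omega), Nat.sub_add_cancel (by omega)]
    exact h5
  · rintro ⟨x, ρ⟩ hz
    rw [mem_coe, mem_SF hm'] at hz
    obtain ⟨hS, hF⟩ := hz
    simp only at hS hF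
    rw [mem_coe, mem_filter, mem_SD hm]
    simp only
    have hN : 1 ≤ N := by
      obtain ⟨i, hi, hi2⟩ := hF 0 (Nat.zero_le _)
      have h1 := hl.zero (V x ρ i) (hS.good i hi) (fun j hj => hS.V_top hi j (by omega)) hi2
      have h2 := hS.le_N hi 0
      omega
    obtain ⟨h1, h2⟩ := hS.up hN
    refine ⟨⟨h1, Nat.zero_le _, ?_⟩, rfl, ?_, ?_⟩
    · intro c hc
      obtain ⟨i', h5, h6⟩ := hF c (by omega)
      refine ⟨i' + 1, by omega, by omega, ?_⟩
      rw [V_brot n x ρ h2 i' (by omega)]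
      exact h6
    · have := hS.fix n le_rfl
      simp only [br]
      split_ifs
      rfl
    · have := hS.fix n le_rfl
      have := hS.top n le_rfl
      simp only [bx]
      split_ifs
      omega
  · rintro ⟨⟨x, ρ⟩, i⟩ hz
    rw [mem_coe, mem_filter, mem_SD hm] at hz
    obtain ⟨⟨hS, hD⟩, rfl, hb1, hb2⟩ := hz
    simp only [bx_rx, br_rr]
  · rintro ⟨x, ρ⟩ hz
    rw [mem_coe, mem_SF hm'] at hz
    obtain ⟨hS, hF⟩ := hz
    simp only at hS hF
    have hN : 1 ≤ N := by
      obtain ⟨i, hi, hi2⟩ := hF 0 (Nat.zero_le _)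
      have h1 := hl.zero (V x ρ i) (hS.good i hi) (fun j hj => hS.V_top hi j (by omega)) hi2
      have h2 := hS.le_N hi 0
      omega
    obtain ⟨h1, h2⟩ := hS.up hN
    simp only [rx_bx n x ρ h2, rr_br]

lemma odd_full {k N : ℕ} {lab : (ℕ → ℕ) → ℕ} (hl : Lab k N lab) (m : ℕ) (hm : m ≤ k) :
    ((SF k N lab m).card : ZMod 2) = 1 := by
  classical
  induction m with
  | zero =>
    have : SF k N lab 0 = {((fun _ => N), id)} := by
      ext ⟨x, ρ⟩
      rw [mem_SF hm, mem_singleton]
      simp only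
      constructor
      · rintro ⟨hS, -⟩
        rw [Prod.mk.injEq]
        exact ⟨funext fun j => hS.top j (Nat.zero_le _), funext fun j => hS.fix j (Nat.zero_le _)⟩
      · intro h
        rw [Prod.mk.injEq] at h
        obtain ⟨rfl, rfl⟩ := h
        have hS : Sx N 0 (fun _ => N) id := by
          constructor
          · intro j _; rfl
          · intro j _; rfl
          · intro j hj; omega
          · intro i j h; exact h
          · intro i hi j
            have : i = 0 := by omega
            subst this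
            simp [V]
        refine ⟨hS, ?_⟩
        intro c hc
        refine ⟨0, le_rfl, ?_⟩
        have := hS.lab_le hl hm (i := 0) le_rfl
        omega
    rw [this, card_singleton]
    rfl
  | succ n ih =>
    rw [← doors_eq hl hm, doors_bd hl hm, bd_full hl hm]
    exact ih (by omega)

end Pool.Agent.H67.EH.KKM

namespace Pool.Agent.H67.EH

open Finset Pool.Agent.H56.EH KKM

/-- **Discrete KKM lemma on monotone tuples.** -/
theorem kkm (k N : ℕ) (lab : (Fin k → ℕ) → Fin (k + 1))
    (hlab : ∀ x, Monotone x → (∀ i, x i ≤ N) → gap N x (lab x) ≠ 0) :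
    ∃ x, Monotone x ∧ (∀ i, x i ≤ N) ∧ ∀ j : Fin (k + 1), ∃ y, Monotone y ∧ (∀ i, y i ≤ N) ∧
      (∀ i, x i ≤ y i ∧ y i ≤ x i + 1) ∧ lab y = j := by
  classical
  have hg : ∀ f : ℕ → ℕ, (∀ j, f j ≤ f (j + 1)) → (∀ j, k ≤ j → f j = N) →
      Monotone (fun i : Fin k => f i) ∧ (∀ i : Fin k, f i ≤ N) := by
    intro f h1 h2
    have h3 : Monotone f := monotone_nat_of_le_succ h1
    refine ⟨fun i j hij => h3 hij, fun i => ?_⟩
    have := h3 i.2.le
    rwa [h2 k le_rfl] at this
  have hl : Lab k N (fun f => (lab (fun i : Fin k => f i)).val) := by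
    constructor
    · intro f
      exact Nat.lt_succ_iff.1 (lab (fun i : Fin k => f i)).2
    · intro f h1 h2 h3
      obtain ⟨h4, h5⟩ := hg f h1 h2
      have h6 := hlab _ h4 h5
      simp only [gap, h3] at h6
      intro h7
      apply h6
      rcases Nat.eq_zero_or_pos k with hk | hk
      · have := h2 0 (by omega)
        simp [hk]
        omega
      · simp [hk, h7]
    · intro f h1 h2 c h3
      obtain ⟨h4, h5⟩ := hg f h1 h2
      have h6 := hlab _ h4 h5
      have hc : c < k := by
        have := (lab (fun i : Fin k => f i)).2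
        omega
      simp only [gap, h3] at h6
      intro h7
      apply h6
      rcases Nat.lt_or_ge (c + 1) k with hk | hk
      · simp [hk, h7]
      · have := h2 (c + 1) hk
        simp only [Nat.not_lt.2 hk, dif_neg, not_false_iff, Nat.succ_pos, dif_pos,
          Nat.add_sub_cancel]
        omega
  have h1 : (SF k N (fun f => (lab (fun i : Fin k => f i)).val) k).Nonempty := by
    rw [← card_pos]
    have := odd_full hl k le_rfl
    by_contra hc
    have h0 : (SF k N (fun f => (lab (fun i : Fin k => f i)).val) k).card = 0 := by omega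
    rw [h0] at this
    exact absurd this (by decide)
  obtain ⟨⟨x, ρ⟩, hz⟩ := h1
  rw [mem_SF le_rfl] at hz
  obtain ⟨hS, hF⟩ := hz
  simp only at hS hF
  have h2 : ∀ i, i ≤ k → Monotone (fun j : Fin k => V x ρ i j) ∧ (∀ j : Fin k, V x ρ i j ≤ N) :=
    fun i hi => hg (V x ρ i) (hS.good i hi) (fun j hj => hS.V_top hi j hj)
  refine ⟨fun i => x i, ?_, ?_, ?_⟩
  · have := (h2 0 (Nat.zero_le _)).1
    simpa [V] using this
  · intro i
    exact hS.x_le i
  · intro j
    obtain ⟨i, hi, hi2⟩ := hF j (Nat.lt_succ_iff.1 j.2)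
    refine ⟨fun j : Fin k => V x ρ i j, (h2 i hi).1, (h2 i hi).2, ?_, Fin.ext hi2⟩
    intro i'
    simp only [V]
    split_ifs <;> omega

end Pool.Agent.H67.EH
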